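import Pool.Agent.H184R3.ES

/-!
# Colourings of `r`-sets determined by the order types with respect to `t` linear orders
-/

namespace Q123.OT

open Finset

/-- The colour `c A` of an `r`-set `A` only depends on its order type with respect to `t` linear
orders `x <_i y :↔ f i x < f i y` (given by injective numberings): if a bijection `A ≃ B` preserves
all the orders then `A` and `B` have the same colour. -/
def DetSets {V κ : Type*} (t r : ℕ) (c : Finset V → κ) : Prop :=
  ∃ f : Fin t → V → ℕ, (∀ i, Function.Injective (f i)) ∧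
    ∀ (A B : Finset V) (φ : A ≃ B), A.card = r →
      (∀ i (x y : A), f i x < f i y ↔ f i (φ x) < f i (φ y)) → c A = c B

/-- All `r`-subsets of `S` have the same colour. -/
def HomSet {V κ : Type*} (r : ℕ) (c : Finset V → κ) (S : Finset V) : Prop :=
  ∀ A B : Finset V, A ⊆ S → B ⊆ S → A.card = r → B.card = r → c A = c B

/-- The pairs in `S` are all ordered in the same way, or all ordered in opposite ways, by `f` and
`g`. -/
def Sync {V : Type*} (f g : V → ℕ) (S : Finset V) : Prop :=
  ∃ b : Prop, ∀ x ∈ S, ∀ y ∈ S, x ≠ y → ((f x < f y ↔ g x < g y) ↔ b)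

theorem Sync.mono {V : Type*} {f g : V → ℕ} {S T : Finset V} (h : Sync f g S) (hT : T ⊆ S) :
    Sync f g T := by
  obtain ⟨b, hb⟩ := h
  exact ⟨b, fun x hx y hy hxy => hb x (hT hx) y (hT hy) hxy⟩

/-- The theorem of Erdős and Szekeres. -/
theorem es {V : Type*} (f g : V → ℕ) (hf : Function.Injective f) (hg : Function.Injective g)
    (m : ℕ) (S : Finset V) (hS : m * m < S.card) :
    ∃ T : Finset V, T ⊆ S ∧ m < T.card ∧ Sync f g T := by
  classical
  let _ : LinearOrder S := LinearOrder.lift' (fun x : S => f x) (fun x y h => Subtype.ext (hf h))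
  have hlt : ∀ x y : S, x < y ↔ f x < f y := fun x y => Iff.rfl
  have hinj : Function.Injective (fun x : S => g x) := fun x y h => Subtype.ext (hg h)
  rcases Pool.Agent.H184R3.ES.erdos_szekeres (α := S) (β := ℕ) (r := m) (s := m)
    (f := fun x : S => g x) (by rw [Fintype.card_coe]; exact hS) hinj with ⟨T, hT, hmono⟩ | ⟨T, hT, hmono⟩
  · refine ⟨T.map (Function.Embedding.subtype _), ?_, by rwa [card_map], True, ?_⟩
    · intro x hx
      obtain ⟨y, -, rfl⟩ := mem_map.1 hx
      exact y.2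
    · intro x hx y hy hxy
      obtain ⟨x', hx', rfl⟩ := mem_map.1 hx
      obtain ⟨y', hy', rfl⟩ := mem_map.1 hy
      rw [iff_true]
      exact ((hlt x' y').symm.trans (hmono.lt_iff_lt hx' hy').symm)
  · refine ⟨T.map (Function.Embedding.subtype _), ?_, by rwa [card_map], False, ?_⟩
    · intro x hx
      obtain ⟨y, -, rfl⟩ := mem_map.1 hx
      exact y.2
    · intro x hx y hy hxy
      obtain ⟨x', hx', rfl⟩ := mem_map.1 hx
      obtain ⟨y', hy', rfl⟩ := mem_map.1 hy
      rw [iff_false]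
      intro h
      have hne : x' ≠ y' := fun h' => hxy (by rw [h'])
      rcases lt_or_gt_of_ne hne with h1 | h1
      · have h2 := h.1 ((hlt x' y').1 h1)
        exact lt_asymm h2 (hmono hx' hy' h1)
      · have h2 : g y' < g x' := by
          rcases lt_or_gt_of_ne (fun h' => hne (hinj h') : g x' ≠ g y') with h3 | h3
          · exact absurd (h.2 h3) (not_lt.2 ((hlt y' x').1 h1).le)
          · exact h3
        exact lt_asymm h2 (hmono hy' hx' h1)

/-- The iterated theorem of Erdős and Szekeres. -/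
theorem es_iter {V : Type*} (f : V → ℕ) (hf : Function.Injective f) (s : ℕ) :
    ∀ (g : Fin s → V → ℕ) (_ : ∀ i, Function.Injective (g i)) (m : ℕ) (S : Finset V),
      m ^ 2 ^ s < S.card → ∃ T : Finset V, T ⊆ S ∧ m < T.card ∧ ∀ i, Sync f (g i) T := by
  induction s with
  | zero =>
    intro g _ m S hS
    exact ⟨S, subset_rfl, by simpa using hS, fun i => i.elim0⟩
  | succ s ih =>
    intro g hg m S hS
    obtain ⟨T, hT, hTc, hsync⟩ := es f (g (Fin.last s)) hf (hg _) (m ^ 2 ^ s) S (by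
      rw [← pow_two, ← pow_mul, ← pow_succ]
      exact hS)
    obtain ⟨U, hU, hUc, hsync'⟩ := ih (fun i => g i.castSucc) (fun i => hg _) m T hTc
    refine ⟨U, hU.trans hT, hUc, fun i => ?_⟩
    refine Fin.lastCases ?_ (fun j => ?_) i
    · exact hsync.mono hU
    · exact hsync' j

theorem sync_self {V : Type*} (f : V → ℕ) (S : Finset V) : Sync f f S :=
  ⟨True, fun _ _ _ _ _ => by simp⟩

/-- A set on which all orders agree up to reversal is homogeneous. -/
theorem hom_of_sync {V κ : Type*} {t r : ℕ} (ht : 0 < t) (c : Finset V → κ) (f : Fin t → V → ℕ)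
    (hf : ∀ i, Function.Injective (f i))
    (hc : ∀ (A B : Finset V) (φ : A ≃ B), A.card = r →
      (∀ i (x y : A), f i x < f i y ↔ f i (φ x) < f i (φ y)) → c A = c B)
    (S : Finset V) (hS : ∀ i, Sync (f ⟨0, ht⟩) (f i) S) : HomSet r c S := by
  classical
  intro A B hA hB hAc hBc
  let _ : LinearOrder V := LinearOrder.lift' (f ⟨0, ht⟩) (hf _)
  have hlt : ∀ x y : V, x < y ↔ f ⟨0, ht⟩ x < f ⟨0, ht⟩ y := fun x y => Iff.rfl
  let φ : A ≃o B := (A.orderIsoOfFin hAc).symm.trans (B.orderIsoOfFin hBc)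
  refine hc A B φ.toEquiv hAc (fun i x y => ?_)
  show f i x < f i y ↔ f i (φ x) < f i (φ y)
  by_cases hxy : x = y
  · rw [hxy]
    simp
  obtain ⟨b, hb⟩ := hS i
  have hxy' : (x : V) ≠ y := fun h => hxy (Subtype.ext h)
  have hφ : (φ x : V) ≠ φ y := fun h => hxy (φ.injective (Subtype.ext h))
  have h1 := hb x (hA x.2) y (hA y.2) hxy'
  have h2 := hb (φ x) (hB (φ x).2) (φ y) (hB (φ y).2) hφ
  have h3 : f ⟨0, ht⟩ x < f ⟨0, ht⟩ y ↔ f ⟨0, ht⟩ (φ x) < f ⟨0, ht⟩ (φ y) := by
    rw [← hlt, ← hlt, Subtype.coe_lt_coe, Subtype.coe_lt_coe]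
    exact φ.lt_iff_lt.symm
  have h4 := h1.trans h2.symm
  rw [h3] at h4
  tauto

/-- The upper bound. -/
theorem upper {κ : Type*} {t r k N : ℕ} (ht : 0 < t) (c : Finset (Fin N) → κ)
    (hc : DetSets t r c) (hN : (k - 1) ^ 2 ^ (t - 1) < N) :
    ∃ S : Finset (Fin N), S.card = k ∧ HomSet r c S := by
  classical
  obtain ⟨f, hf, hc⟩ := hc
  obtain ⟨s, rfl⟩ : ∃ s, t = s + 1 := ⟨t - 1, by omega⟩
  obtain ⟨T, -, hT, hsync⟩ := es_iter (f 0) (hf 0) s (fun i => f i.succ) (fun i => hf _) (k - 1)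
    Finset.univ (by rw [card_univ, Fintype.card_fin]; simpa using hN)
  obtain ⟨S, hS, hSc⟩ := exists_subset_card_eq (show k ≤ T.card by omega)
  refine ⟨S, hSc, hom_of_sync ht c f hf hc S (fun i => ?_)⟩
  refine Fin.cases ?_ (fun j => ?_) i
  · exact sync_self _ _
  · exact (hsync j).mono hS

end Q123.OT
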