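import Pool.Agent.Q123.OT.Basic

namespace Q123.OT

open Finset

/-- The rank of an element of a finite linear order. -/
def rank {α : Type*} [Fintype α] [LinearOrder α] (a : α) : ℕ := (univ.filter (· < a)).card

theorem rank_strictMono {α : Type*} [Fintype α] [LinearOrder α] :
    StrictMono (rank : α → ℕ) := by
  intro a b hab
  refine card_lt_card ?_
  rw [Finset.ssubset_iff_of_subset]
  · exact ⟨a, by simp [hab], by simp⟩
  · intro x hx
    simp only [mem_filter, mem_univ, true_and] at hx ⊢
    exact hx.trans hab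

/-- The sign pattern: the order `i` is reversed at the coordinate `j`. -/
def sgn (i j : ℕ) : Bool := decide (1 ≤ i) && j.testBit (i - 1)

/-- Reversing coordinates. -/
def flip {M n : ℕ} (i : ℕ) (x : Fin M → Fin n) : Fin M → Fin n :=
  fun j => if sgn i j then Fin.rev (x j) else x j

/-- The first coordinate at which `x` and `y` differ. -/
def FirstDiff {M n : ℕ} (x y : Fin M → Fin n) (d : Fin M) : Prop :=
  (∀ j, j < d → x j = y j) ∧ x d ≠ y d

theorem exists_firstDiff {M n : ℕ} {x y : Fin M → Fin n} (h : x ≠ y) :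
    ∃ d, FirstDiff x y d := by
  classical
  obtain ⟨j, hj⟩ := Function.ne_iff.1 h
  have hne : (univ.filter (fun j => x j ≠ y j)).Nonempty := ⟨j, by simp [hj]⟩
  refine ⟨(univ.filter (fun j => x j ≠ y j)).min' hne, ?_, ?_⟩
  · intro i hi
    by_contra hcon
    exact absurd (Finset.min'_le _ i (by simp [hcon])) (not_le.2 hi)
  · have := Finset.min'_mem _ hne
    simpa using this

theorem lex_lt_iff {M n : ℕ} (i : ℕ) {x y : Fin M → Fin n} {d : Fin M} (h : FirstDiff x y d) :
    toLex (flip i x) < toLex (flip i y) ↔ (if sgn i d then y d < x d else x d < y d) := by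
  have hd : flip i x d < flip i y d ↔ (if sgn i d then y d < x d else x d < y d) := by
    unfold flip
    cases hs : sgn i d
    · simp
    · simp
  rw [← hd]
  constructor
  · rintro ⟨j, hj, hlt⟩
    rcases lt_trichotomy j d with h1 | h1 | h1
    · exfalso
      have h2 : flip i x j = flip i y j := by
        unfold flip
        rw [h.1 j h1]
      exact (ne_of_lt hlt) h2
    · subst h1
      exact hlt
    · exfalso
      have h2 : flip i x d = flip i y d := hj d h1
      apply h.2
      unfold flip at h2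
      cases hs : sgn i d
      · simpa [hs] using h2
      · simpa [hs] using h2
  · intro hlt
    refine ⟨d, fun j hj => ?_, hlt⟩
    show flip i x j = flip i y j
    unfold flip
    rw [h.1 j hj]

/-- The numbering of the `i`-th order. -/
noncomputable def num {M n : ℕ} (i : ℕ) (v : Fin (n ^ M)) : ℕ :=
  rank (toLex (flip i (finFunctionFinEquiv.symm v)))

theorem flip_injective {M n : ℕ} (i : ℕ) : Function.Injective (flip i : (Fin M → Fin n) → _) := by
  intro x y h
  funext j
  have h1 := congrFun h j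
  unfold flip at h1
  cases hs : sgn i j
  · simpa [hs] using h1
  · simpa [hs] using h1

theorem num_injective {M n : ℕ} (i : ℕ) : Function.Injective (num i : Fin (n ^ M) → ℕ) := by
  intro v w h
  have h1 := rank_strictMono.injective h
  have h2 := flip_injective i (toLex.injective h1)
  exact finFunctionFinEquiv.symm.injective h2

theorem num_lt_iff {M n : ℕ} (i : ℕ) {v w : Fin (n ^ M)} {d : Fin M}
    (h : FirstDiff (finFunctionFinEquiv.symm v) (finFunctionFinEquiv.symm w) d) :
    num i v < num i w ↔ (if sgn i d then finFunctionFinEquiv.symm w d <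
      finFunctionFinEquiv.symm v d else finFunctionFinEquiv.symm v d <
      finFunctionFinEquiv.symm w d) := by
  exact (rank_strictMono.lt_iff_lt).trans (lex_lt_iff i h)

/-- A set on which all the orders agree up to reversal has at most `n` elements. -/
theorem card_le_of_sync {t n : ℕ} (ht : 0 < t) (S : Finset (Fin (n ^ 2 ^ (t - 1))))
    (hS : ∀ i < t, Sync (num 0) (num i) S) : S.card ≤ n ∨ S.card ≤ 1 := by
  classical
  by_cases h1 : S.card ≤ 1
  · exact Or.inr h1
  left
  push Not at h1
  obtain ⟨a, ha, b, hb, hab⟩ := one_lt_card.1 h1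
  have hinj : Function.Injective (fun v : Fin (n ^ 2 ^ (t - 1)) =>
      (finFunctionFinEquiv.symm v : Fin (2 ^ (t - 1)) → Fin n)) :=
    fun v w h => finFunctionFinEquiv.symm.injective h
  obtain ⟨D, hD⟩ := exists_firstDiff (fun h => hab (hinj h) :
    (finFunctionFinEquiv.symm a : Fin (2 ^ (t - 1)) → Fin n) ≠ finFunctionFinEquiv.symm b)
  have key : ∀ x ∈ S, ∀ y ∈ S, x ≠ y →
      ∀ d : Fin (2 ^ (t - 1)), FirstDiff (finFunctionFinEquiv.symm x : Fin (2 ^ (t - 1)) → Fin n)
        (finFunctionFinEquiv.symm y) d → d = D := by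
    intro x hx y hy hxy d hd
    have hs : ∀ i < t, sgn i d = sgn i D := by
      intro i hi
      obtain ⟨β, hβ⟩ := hS i hi
      have e1 := hβ x hx y hy hxy
      have e2 := hβ a ha b hb hab
      rw [num_lt_iff 0 hd, num_lt_iff i hd] at e1
      rw [num_lt_iff 0 hD, num_lt_iff i hD] at e2
      have z1 : sgn 0 (d : ℕ) = false := by simp [sgn]
      have z2 : sgn 0 (D : ℕ) = false := by simp [sgn]
      rw [z1] at e1
      rw [z2] at e2
      have n1 := hd.2
      have n2 := hD.2
      rcases lt_or_gt_of_ne n1 with l1 | l1 <;> rcases lt_or_gt_of_ne n2 with l2 | l2 <;>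
        cases h3 : sgn i d <;> cases h4 : sgn i D <;>
        simp [h3, h4, l1, l2, not_lt.2 l1.le, not_lt.2 l2.le] at e1 e2 ⊢ <;>
        exact absurd e1 (by simp [e2])
    apply Fin.ext
    apply Nat.eq_of_testBit_eq
    intro m
    by_cases hm : m < t - 1
    · have h3 := hs (m + 1) (by omega)
      unfold sgn at h3
      simpa using h3
    · have e : ∀ z : Fin (2 ^ (t - 1)), (z : ℕ).testBit m = false := by
        intro z
        apply Nat.testBit_lt_two_pow
        exact lt_of_lt_of_le z.isLt (Nat.pow_le_pow_right (by norm_num) (by omega))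
      rw [e, e]
  calc S.card = (S.image (fun x => (finFunctionFinEquiv.symm x : Fin (2 ^ (t - 1)) → Fin n) D)).card := by
        rw [card_image_of_injOn]
        intro x hx y hy hxy
        by_contra hne
        obtain ⟨d, hd⟩ := exists_firstDiff (fun h => hne (hinj h) :
          (finFunctionFinEquiv.symm x : Fin (2 ^ (t - 1)) → Fin n) ≠ finFunctionFinEquiv.symm y)
        have := key x hx y hy hne d hd
        subst this
        exact hd.2 hxy
    _ ≤ (univ : Finset (Fin n)).card := card_le_card (subset_univ _)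
    _ = n := by rw [card_univ, Fintype.card_fin]

/-- Two numberings that agree or disagree on every triple do so on all pairs. -/
theorem sync_of_triples {V : Type*} [DecidableEq V] (f g : V → ℕ) (hf : Function.Injective f)
    (hg : Function.Injective g) (S : Finset V)
    (h : ∀ T : Finset V, T ⊆ S → T.card ≤ 3 → Sync f g T) : Sync f g S := by
  classical
  by_cases h1 : S.card ≤ 3
  · exact h S subset_rfl h1
  have hsymm : ∀ x y : V, x ≠ y → ((f x < f y ↔ g x < g y) ↔ (f y < f x ↔ g y < g x)) := by
    intro x y hxy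
    rcases lt_or_gt_of_ne (fun h' => hxy (hf h') : f x ≠ f y) with l1 | l1 <;>
      rcases lt_or_gt_of_ne (fun h' => hxy (hg h') : g x ≠ g y) with l2 | l2 <;>
      simp [l1, l2, not_lt.2 l1.le, not_lt.2 l2.le]
  have tri : ∀ x ∈ S, ∀ y ∈ S, ∀ z ∈ S, x ≠ y → x ≠ z →
      ((f x < f y ↔ g x < g y) ↔ (f x < f z ↔ g x < g z)) := by
    intro x hx y hy z hz hxy hxz
    obtain ⟨b, hb⟩ := h {x, y, z} (by
      intro w hw
      simp only [mem_insert, mem_singleton] at hw
      rcases hw with rfl | rfl | rfl
      · exact hx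
      · exact hy
      · exact hz) Finset.card_le_three
    rw [hb x (by simp) y (by simp) hxy, hb x (by simp) z (by simp) hxz]
  push Not at h1
  obtain ⟨a, ha, a', ha', haa⟩ := one_lt_card.1 (show 1 < S.card by omega)
  refine ⟨(f a < f a' ↔ g a < g a'), fun x hx y hy hxy => ?_⟩
  by_cases hxa : x = a
  · subst hxa
    exact tri x hx y hy a' ha' hxy haa
  · have e1 := tri x hx y hy a ha hxy hxa
    have e2 := hsymm x a hxa
    have e3 := tri a ha x hx a' ha' (Ne.symm hxa) haa
    exact e1.trans (e2.trans e3)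

/-- The lower bound, for given numberings. -/
theorem lower_abstract {V : Type*} [DecidableEq V] {t r k : ℕ} (ht : 0 < t) (hr : 3 ≤ r)
    (hk : (r - 1) ^ 2 ^ (t - 1) < k) (f : ℕ → V → ℕ) (hf : ∀ i, Function.Injective (f i))
    (hcard : ∀ S : Finset V, (∀ i < t, Sync (f 0) (f i) S) → S.card < k) :
    ∃ c : Finset V → Bool, DetSets t r c ∧ ∀ S : Finset V, S.card = k → ¬ HomSet r c S := by
  classical
  have hrk : r ≤ k := by
    have : r - 1 ≤ (r - 1) ^ 2 ^ (t - 1) := Nat.le_self_pow (by positivity) _
    omega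
  have hinv : ∀ (A B : Finset V) (φ : A ≃ B),
      (∀ i < t, ∀ x y : A, f i x < f i y ↔ f i (φ x) < f i (φ y)) →
      (∀ i < t, Sync (f 0) (f i) A) → ∀ i < t, Sync (f 0) (f i) B := by
    intro A B φ hφ h i hi
    obtain ⟨b, hb⟩ := h i hi
    refine ⟨b, fun x hx y hy hxy => ?_⟩
    have e1 := hb (φ.symm ⟨x, hx⟩) (φ.symm ⟨x, hx⟩).2 (φ.symm ⟨y, hy⟩) (φ.symm ⟨y, hy⟩).2 (by
      intro h'
      exact hxy (congrArg Subtype.val (φ.symm.injective (Subtype.ext h'))))
    have e2 := hφ 0 ht (φ.symm ⟨x, hx⟩) (φ.symm ⟨y, hy⟩)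
    have e3 := hφ i hi (φ.symm ⟨x, hx⟩) (φ.symm ⟨y, hy⟩)
    rw [Equiv.apply_symm_apply, Equiv.apply_symm_apply] at e2 e3
    rw [e2, e3] at e1
    exact e1
  refine ⟨fun A => decide (∀ i < t, Sync (f 0) (f i) A), ?_, ?_⟩
  · refine ⟨fun i => f i, fun i => hf _, fun A B φ _ hφ => ?_⟩
    have hφ' : ∀ i < t, ∀ x y : A, f i x < f i y ↔ f i (φ x) < f i (φ y) :=
      fun i hi => hφ ⟨i, hi⟩
    refine decide_eq_decide.2 ⟨hinv A B φ hφ', hinv B A φ.symm (fun i hi x y => ?_)⟩
    have := hφ' i hi (φ.symm x) (φ.symm y)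
    rw [Equiv.apply_symm_apply, Equiv.apply_symm_apply] at this
    exact this.symm
  · intro S hS hhom
    obtain ⟨T, hT, hTc, hsync⟩ := es_iter (f 0) (hf 0) (t - 1)
      (fun i : Fin (t - 1) => f (i + 1)) (fun i => hf _) (r - 1) S (by
        rw [hS]
        exact hk)
    obtain ⟨A, hA, hAc⟩ := exists_subset_card_eq (show r ≤ T.card by omega)
    have hAtrue : ∀ i < t, Sync (f 0) (f i) A := by
      intro i hi
      rcases Nat.eq_zero_or_pos i with rfl | hpos
      · exact sync_self _ _
      · have h1 := (hsync ⟨i - 1, by omega⟩).mono hA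
        have h2 : i - 1 + 1 = i := by omega
        simp only [h2] at h1
        exact h1
    have hall : ∀ B : Finset V, B ⊆ S → B.card = r → ∀ i < t, Sync (f 0) (f i) B := by
      intro B hB hBc
      have h1 := hhom A B (hA.trans hT) hB hAc hBc
      exact (decide_eq_decide.1 h1).1 hAtrue
    have hSsync : ∀ i < t, Sync (f 0) (f i) S := by
      intro i hi
      refine sync_of_triples _ _ (hf _) (hf _) S (fun U hU hUc => ?_)
      obtain ⟨B, hUB, hBS, hBc⟩ := exists_subsuperset_card_eq hU (hUc.trans hr) (by omega)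
      exact (hall B hBS hBc i hi).mono hUB
    have := hcard S hSsync
    omega

/-- The lower bound. -/
theorem lower {t r k : ℕ} (ht : 0 < t) (hr : 3 ≤ r) (hk : (r - 1) ^ 2 ^ (t - 1) < k) :
    ∃ c : Finset (Fin ((k - 1) ^ 2 ^ (t - 1))) → Bool, DetSets t r c ∧
      ∀ S : Finset (Fin ((k - 1) ^ 2 ^ (t - 1))), S.card = k → ¬ HomSet r c S := by
  have hk2 : 2 < k := by
    have h1 : r - 1 ≤ (r - 1) ^ 2 ^ (t - 1) := Nat.le_self_pow (by positivity) _
    omega
  refine lower_abstract ht hr hk num (fun i => num_injective i) (fun S hS => ?_)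
  rcases card_le_of_sync ht S hS with h | h
  · omega
  · omega

end Q123.OT
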